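import Mathlib
import Pool.Agent.Lib_helper28.SM.Ctx
import Pool.Agent.Lib_helper25.GP.NC
import Pool.Agent.Lib_helper59.NEG.S4
import Pool.Agent.Lib_helper26.SCH.Step

/-!
# The case `20 b ≤ 9 n` and the case without wrap
-/

set_option autoImplicit false

namespace Pool.Agent.NCA

open Finset Pool.Agent.GL Pool.Agent.SCH

universe u

/-- the case `20 b ≤ 9 n` -/
theorem nCase : NCase.{u} := by
  intro G _ _ _ B m χ φ ctx hβ
  rcases Nat.lt_or_ge 6 m with h | h
  · exact GP.ncase_seven G B m χ φ ctx h hβ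
  · exact SM.small_ctx ctx h hβ

/-- the case without wrap -/
theorem s4Case : S4Case.{u} := by
  intro G _ _ _ B m _ φ hφ hNW h74
  exact NEG.s4 φ hφ B hNW h74

end Pool.Agent.NCA
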